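import Pool.Agent.H12.KP.Targets4

set_option autoImplicit false

namespace Pool.Agent.H58.KP

open Pool.Agent.H12.KP Polynomial TensorProduct

universe u v

/-- algebraisation of the formal solution -/
theorem pf_ALG (hITER : S_ITER.{u,v}) (hFG : S_FGLIM.{u,v}) : S_ALG.{u,v} := by
  intro A B0 B1 B01 _ _ _ _ _ _ _ C p hp π ε e a r hpe hε ha hea hA hnz b c b1 N j hH hb hb' hsp
  obtain ⟨t, τ, ht0, hτ0, ht, hτ, hit⟩ := hITER A B0 B1 B01 C p hp π ε e a r hpe hε ha hea b c N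
    hb' (hsp N le_rfl)
  set q : ℕ := p ^ r with hq
  have hq1 : 1 ≤ q := Nat.one_le_pow _ _ hp.pos
  set N' : ℕ := j + N * q with hN'
  have hNN' : N ≤ N' := by
    rw [hN']; nlinarith
  set P0 : B0 := algebraMap A B0 π with hP0
  set P1 : B1 := algebraMap A B1 π with hP1
  set P : B01 := algebraMap A B01 π with hP
  set n0 : ℕ := r * e + a with hn0
  set f : B0 := b + P0 ^ n0 * c with hf
  have hi0P : C.i0 P0 = P := by rw [hP0, hP]; exact C.i0.commutes π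
  have hi1P : C.i1 P1 = P := by rw [hP1, hP]; exact C.i1.commutes π
  have hnzk : ∀ (k : ℕ) (z : B01), P ^ k * z = 0 → z = 0 := by
    intro k
    induction k with
    | zero => intro z hz; simpa using hz
    | succ k ih =>
      intro z hz
      apply hnz
      apply ih
      rw [← hz]; ring
  -- the difference
  have hdiff : ∀ k, ∃ (z0 : B0) (z1 : B1), C.i0 (f * t k ^ q) -
      C.i0 C.T ^ N' * C.i1 (b1 * τ k ^ q) =
        P ^ (n0 + k) * (C.i0 z0 + C.i0 C.T ^ N' * C.i1 z1) := by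
    intro k
    obtain ⟨z, hz⟩ := hit k
    obtain ⟨z0, z1, hzz⟩ := hsp N' hNN' (-z)
    refine ⟨z0, z1, ?_⟩
    rw [← hzz]
    have e1 : C.i0 b * (C.i0 C.T ^ N * C.i1 (τ k)) ^ q =
        C.i0 C.T ^ N' * C.i1 (b1 * τ k ^ q) := by
      rw [hb, mul_pow, ← pow_mul, map_mul, map_pow, hN', pow_add]
      ring
    rw [e1] at hz
    rw [map_mul, map_pow]
    linear_combination -hz
  choose z0 z1 hz using hdiff
  let h : ℕ → B0 × B1 := fun k =>
    (f * t k ^ q - P0 ^ (n0 + k) * z0 k, b1 * τ k ^ q + P1 ^ (n0 + k) * z1 k)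
  have hmem : ∀ k, h k ∈ HN C N' := by
    intro k
    change C.i0 (f * t k ^ q - P0 ^ (n0 + k) * z0 k) =
      C.i0 C.T ^ N' * C.i1 (b1 * τ k ^ q + P1 ^ (n0 + k) * z1 k)
    rw [map_sub, map_add, map_mul C.i0 (P0 ^ (n0 + k)), map_mul C.i1 (P1 ^ (n0 + k)), map_pow,
      map_pow, hi0P, hi1P]
    linear_combination hz k
  have hdv : ∀ {R : Type v} [CommRing R] (Q : R) (s : ℕ → R) (k : ℕ),
      Q ^ (a + k) ∣ s (k + 1) - s k → Q ^ k ∣ s (k + 1) ^ q - s k ^ q := by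
    intro R _ Q s k hs
    exact (pow_dvd_pow Q (Nat.le_add_left k a)).trans (hs.trans (sub_dvd_pow_sub_pow _ _ _))
  have hstep : ∀ k, ∃ w ∈ HN C N', h (k + 1) - h k = π ^ k • w := by
    intro k
    obtain ⟨u0, hu0⟩ := hdv P0 t k (ht k)
    obtain ⟨u1, hu1⟩ := hdv P1 τ k (hτ k)
    have w0 : (h (k + 1)).1 - (h k).1 =
        P0 ^ k * (f * u0 - P0 ^ (n0 + 1) * z0 (k + 1) + P0 ^ n0 * z0 k) := by
      change (f * t (k + 1) ^ q - P0 ^ (n0 + (k + 1)) * z0 (k + 1)) -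
        (f * t k ^ q - P0 ^ (n0 + k) * z0 k) = _
      rw [pow_add P0 n0 (k + 1), pow_add P0 n0 k, pow_succ P0 n0, pow_succ P0 k]
      linear_combination f * hu0
    have w1 : (h (k + 1)).2 - (h k).2 =
        P1 ^ k * (b1 * u1 + P1 ^ (n0 + 1) * z1 (k + 1) - P1 ^ n0 * z1 k) := by
      change (b1 * τ (k + 1) ^ q + P1 ^ (n0 + (k + 1)) * z1 (k + 1)) -
        (b1 * τ k ^ q + P1 ^ (n0 + k) * z1 k) = _
      rw [pow_add P1 n0 (k + 1), pow_add P1 n0 k, pow_succ P1 n0, pow_succ P1 k]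
      linear_combination b1 * hu1
    refine ⟨(f * u0 - P0 ^ (n0 + 1) * z0 (k + 1) + P0 ^ n0 * z0 k,
      b1 * u1 + P1 ^ (n0 + 1) * z1 (k + 1) - P1 ^ n0 * z1 k), ?_, ?_⟩
    · have hd : h (k + 1) - h k ∈ HN C N' := Submodule.sub_mem _ (hmem _) (hmem _)
      change C.i0 ((h (k + 1)).1 - (h k).1) = C.i0 C.T ^ N' * C.i1 ((h (k + 1)).2 - (h k).2) at hd
      rw [w0, w1, map_mul C.i0 (P0 ^ k), map_mul C.i1 (P1 ^ k), map_pow, map_pow, hi0P,
        hi1P] at hd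
      change C.i0 (f * u0 - P0 ^ (n0 + 1) * z0 (k + 1) + P0 ^ n0 * z0 k) =
        C.i0 C.T ^ N' * C.i1 (b1 * u1 + P1 ^ (n0 + 1) * z1 (k + 1) - P1 ^ n0 * z1 k)
      rw [← sub_eq_zero]
      apply hnzk k
      linear_combination hd
    · refine Prod.ext ?_ ?_
      · change (h (k + 1)).1 - (h k).1 = π ^ k • (f * u0 - P0 ^ (n0 + 1) * z0 (k + 1) +
          P0 ^ n0 * z0 k)
        rw [w0, hP0, ← map_pow, Algebra.smul_def]
      · change (h (k + 1)).2 - (h k).2 = π ^ k • (b1 * u1 + P1 ^ (n0 + 1) * z1 (k + 1) -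
          P1 ^ n0 * z1 k)
        rw [w1, hP1, ← map_pow, Algebra.smul_def]
  obtain ⟨η, hη, hη2⟩ := hFG A (B0 × B1) π hA (HN C N') hH h hmem hstep
  refine ⟨η.1, η.2, t, τ, hη, ?_, ?_, ?_, ?_, ?_⟩
  · intro k
    induction k with
    | zero => rw [ht0]; simp
    | succ k ih =>
      have h1 : P0 ∣ t (k + 1) - t k := (dvd_pow_self P0 (by omega)).trans (ht k)
      have h2 := dvd_add h1 ih
      simpa using h2
  · intro k
    induction k with
    | zero => rw [hτ0]; simp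
    | succ k ih =>
      have h1 : P1 ∣ τ (k + 1) - τ k := (dvd_pow_self P1 (by omega)).trans (hτ k)
      have h2 := dvd_add h1 ih
      simpa using h2
  · intro k
    exact (pow_dvd_pow P1 (Nat.le_add_left k a)).trans (hτ k)
  · intro k
    obtain ⟨z, hz', hz2⟩ := hη2 k
    have e1 : η.1 - (f * t k ^ q - P0 ^ (n0 + k) * z0 k) = P0 ^ k * z.1 := by
      have := congrArg Prod.fst hz2
      change η.1 - (f * t k ^ q - P0 ^ (n0 + k) * z0 k) = π ^ k • z.1 at this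
      rw [this, hP0, ← map_pow, Algebra.smul_def]
    refine ⟨z.1 - P0 ^ n0 * z0 k, ?_⟩
    rw [pow_add] at e1
    linear_combination e1
  · intro k
    obtain ⟨z, hz', hz2⟩ := hη2 k
    have e1 : η.2 - (b1 * τ k ^ q + P1 ^ (n0 + k) * z1 k) = P1 ^ k * z.2 := by
      have := congrArg Prod.snd hz2
      change η.2 - (b1 * τ k ^ q + P1 ^ (n0 + k) * z1 k) = π ^ k • z.2 at this
      rw [this, hP1, ← map_pow, Algebra.smul_def]
    refine ⟨z.2 + P1 ^ n0 * z1 k, ?_⟩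
    rw [pow_add] at e1
    linear_combination e1

end Pool.Agent.H58.KP
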