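import Pool.Agent.H12.KP.Targets4

set_option autoImplicit false

namespace Pool.Agent.H58.KP

open Pool.Agent.H12.KP Polynomial TensorProduct

universe u v

/-- dependent recursion -/
theorem exists_rec {S : Type v} (P : ℕ → S → Prop) (R : ℕ → S → S → Prop)
    (h0 : ∃ s, P 0 s) (hs : ∀ k s, P k s → ∃ s', P (k + 1) s' ∧ R k s s') :
    ∃ f : ℕ → S, (∀ k, P k (f k)) ∧ ∀ k, R k (f k) (f (k + 1)) := by
  choose! g hg using hs
  obtain ⟨s0, hs0⟩ := h0
  let f : ℕ → S := fun n => Nat.rec s0 (fun k s => g k s) n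
  have hf : ∀ k, P k (f k) := by
    intro k
    induction k with
    | zero => exact hs0
    | succ k ih => exact (hg k _ ih).1
  exact ⟨f, hf, fun k => (hg k _ (hf k)).2⟩

/-- the element `i` -/
theorem pf_INEL (hFG : S_FGLIM.{u,v}) : S_INEL.{u,v} := by
  intro A C _ _ _ π S hA hM N τ hτ hτ'
  obtain ⟨M, hMfg, hM⟩ := hM
  set P : C := algebraMap A C π with hP
  set J : Ideal C := Ideal.span {P, S} with hJ
  have hSJ : S ∈ J := Ideal.subset_span (by simp)
  let D : ℕ → Submodule A C := fun n => ⨆ l ∈ Finset.range n,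
    M.map (LinearMap.mulLeft A (S ^ l))
  have hDfg : ∀ n, (D n).FG := fun n =>
    Submodule.fg_biSup _ _ fun l _ => hMfg.map _
  have hD1 : ∀ n l, l < n → ∀ m ∈ M, S ^ l * m ∈ D n := by
    intro n l hl m hm
    have h1 : M.map (LinearMap.mulLeft A (S ^ l)) ≤ D n :=
      le_iSup₂_of_le (f := fun l (_ : l ∈ Finset.range n) =>
        M.map (LinearMap.mulLeft A (S ^ l))) l (Finset.mem_range.2 hl) le_rfl
    exact h1 ⟨m, hm, by simp [LinearMap.mulLeft_apply]⟩
  have hD2 : ∀ n, D n ≤ D (n + 1) := by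
    intro n
    refine iSup₂_le fun l hl => ?_
    exact le_iSup₂_of_le (f := fun l (_ : l ∈ Finset.range (n + 1)) =>
        M.map (LinearMap.mulLeft A (S ^ l))) l
        (Finset.mem_range.2 (lt_trans (Finset.mem_range.1 hl) (Nat.lt_succ_self n))) le_rfl
  have h1 : ∀ n (z : C), ∃ d ∈ D n, ∃ c, z = d + S ^ n * c := by
    intro n
    induction n with
    | zero => intro z; exact ⟨0, Submodule.zero_mem _, z, by simp⟩
    | succ n ih =>
      intro z
      obtain ⟨d, hd, c, hc⟩ := ih z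
      obtain ⟨m, hm, c', hc'⟩ := hM c
      refine ⟨d + S ^ n * m, Submodule.add_mem _ (hD2 n hd) (hD1 _ _ (Nat.lt_succ_self n) m hm),
        c', ?_⟩
      rw [hc, hc']; ring
  -- the recursion
  have hrec := exists_rec (S := C × C)
    (fun k s => s.1 ∈ D (N + 1) ∧ s.2 ∈ J ∧ P ^ k ∣ τ k * (1 - s.2) - s.1)
    (fun k s s' => ∃ z ∈ D (N + 1), s'.1 - s.1 = π ^ k • z)
    ⟨(0, 0), Submodule.zero_mem _, J.zero_mem, by simp⟩ (by
      rintro k ⟨d, j⟩ ⟨hd, hj, hdj⟩
      simp only at hd hj hdj ⊢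
      obtain ⟨z1, hz1⟩ := hdj
      obtain ⟨z2, hz2⟩ := hτ' k
      obtain ⟨d', hd', c, hc⟩ := h1 (N + 1) (z2 * (1 - j) + z1)
      obtain ⟨e, he⟩ := hτ (k + 1)
      refine ⟨(d + P ^ k * d', j + P ^ k * (S * c)), ⟨?_, ?_, ?_⟩, d', hd', ?_⟩
      · have : P ^ k * d' = π ^ k • d' := by
          rw [hP, ← map_pow, Algebra.smul_def]
        simp only [this]
        exact Submodule.add_mem _ hd (Submodule.smul_mem _ _ hd')
      · exact J.add_mem hj (J.mul_mem_left _ (J.mul_mem_right _ hSJ))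
      · refine ⟨-(e * (S * c)), ?_⟩
        simp only
        have hc2 : S ^ N * (S * c) = z2 * (1 - j) + z1 - d' := by
          rw [hc]; ring
        have e1 : τ (k + 1) * (S * c) = z2 * (1 - j) + z1 - d' + P * e * (S * c) := by
          rw [← hc2]; linear_combination (S * c) * he
        linear_combination (1 - j) * hz2 + hz1 - P ^ k * e1
      · simp only [add_sub_cancel_left]
        rw [hP, ← map_pow, Algebra.smul_def])
  obtain ⟨f, hf1, hf2⟩ := hrec
  obtain ⟨i, hi, hi2⟩ := hFG A C π hA (D (N + 1)) (hDfg _) (fun k => (f k).1)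
    (fun k => (hf1 k).1) hf2
  refine ⟨i, fun k => (f k).2, fun k => (hf1 k).2.1, fun k => ?_⟩
  obtain ⟨z, hz, hz2⟩ := hi2 k
  obtain ⟨z1, hz1⟩ := (hf1 k).2.2
  refine ⟨z - z1, ?_⟩
  have e2 : i - (f k).1 = P ^ k * z := by
    rw [hz2, hP, ← map_pow, Algebra.smul_def]
  linear_combination e2 - hz1

end Pool.Agent.H58.KP
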