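import Pool.Agent.H12.KP.Targets4

set_option autoImplicit false

namespace Pool.Agent.H58.KP

open Pool.Agent.H12.KP Polynomial TensorProduct

universe u v

/-- Krull's intersection theorem in the form we need. -/
theorem pf_KRULL : S_KRULL.{v} := by
  intro C _ _ J x y h
  have hx : (Submodule.Quotient.mk x : C ⧸ Ideal.span {y}) ∈
      (⨅ i : ℕ, J ^ i • ⊤ : Submodule C (C ⧸ Ideal.span {y})) := by
    rw [Submodule.mem_iInf]
    intro k
    obtain ⟨c, hc⟩ := h k
    have h1 : (Submodule.Quotient.mk x : C ⧸ Ideal.span {y}) =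
        (x - y * c) • (Submodule.Quotient.mk (1 : C) : C ⧸ Ideal.span {y}) := by
      rw [← Submodule.Quotient.mk_smul, Submodule.Quotient.eq]
      simp only [smul_eq_mul, mul_one, sub_sub_cancel]
      exact Ideal.mul_mem_right _ _ (Ideal.mem_span_singleton_self y)
    rw [h1]
    exact Submodule.smul_mem_smul hc Submodule.mem_top
  rw [Ideal.mem_iInf_smul_pow_eq_bot_iff] at hx
  obtain ⟨r, hr⟩ := hx
  rw [← Submodule.Quotient.mk_smul, Submodule.Quotient.eq, smul_eq_mul,
    Ideal.mem_span_singleton] at hr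
  obtain ⟨c, hc⟩ := hr
  refine ⟨-(r : C), J.neg_mem r.2, -c, ?_⟩
  linear_combination -hc

end Pool.Agent.H58.KP
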